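import Pool.Agent.Helper80.SI.StN

set_option autoImplicit false

/-! Project SI, module N13: the two sums in terms of the components. -/

namespace Pool.Agent.Helper19.SI

open Pool.Agent.Helper99.SI Pool.Agent.Helper80.SI Filter Topology

section

variable {n : ℕ} {L : Type} [Ring L] [Algebra ℂ L] [StarRing L] [StarModule ℂ L] [Nontrivial L]

omit [StarModule ℂ L] [Nontrivial L] in
lemma w_nil (D : Sys n L) : D.w [] = 1 := by simp [Sys.w, wd]

omit [Nontrivial L] in
lemma supp_gp (h1 : StA0) (h2 : StA2) (D : Sys n L) (m : MData n L) (l : ℤ) (i : Idx n m.r)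
    (hi : D.g.p l (m.piT D 1 i) ≠ 0) : ilen i ≤ l.natAbs := by
  rcases i with (ν | ν) | a
  · change D.g.p l (if m.M ≤ ν.length then D.b.ev ((1 : ℝ) : ℂ) (D.w ν) else 0) ≠ 0 at hi
    change ν.length ≤ l.natAbs
    split_ifs at hi with h
    · rw [Complex.ofReal_one, (h1 L D.b).2.2.2.2.1] at hi
      have h3 := h2 n L D l ν []
      rw [w_nil, star_one, mul_one] at h3
      rw [h3] at hi
      split_ifs at hi with h4
      · simp only [List.length_nil, Nat.cast_zero, sub_zero] at h4
        omega
      · exact absurd rfl hi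
    · exact absurd (map_zero _) hi
  · change D.g.p l (if m.M ≤ ν.length then star (D.w ν) else 0) ≠ 0 at hi
    change ν.length ≤ l.natAbs
    split_ifs at hi with h
    · have h3 := h2 n L D l [] ν
      rw [w_nil, one_mul] at h3
      rw [h3] at hi
      split_ifs at hi with h4
      · simp only [List.length_nil, Nat.cast_zero, zero_sub] at h4
        omega
      · exact absurd rfl hi
    · exact absurd (map_zero _) hi
  · exact Nat.zero_le _

omit [Nontrivial L] in
lemma comp_eq (h1 : StA0) (h2 : StA2) (D : Sys n L) (m : MData n L) (z : Idx n m.r → ℂ) (l : ℤ)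
    (T : Finset (Idx n m.r)) (hT : ∀ i, ilen i ≤ l.natAbs → i ∈ T) :
    comp D m z l = ∑ i ∈ T, z i • D.g.p l (m.piT D 1 i) := by
  unfold comp
  apply finsum_eq_sum_of_support_subset
  intro i hi
  rw [Function.mem_support] at hi
  refine hT i (supp_gp h1 h2 D m l i ?_)
  intro h
  exact hi (by rw [h, smul_zero])

/-- tau as a linear map. -/
lemma tau_lin (h4 : StK2) (D : Sys n L) (c : W n) (hc : c ≠ []) :
    ∃ τ : L →ₗ[ℂ] ℂ, ∀ y, D.tau c y = τ y :=
  ⟨{ toFun := D.tau c
     map_add' := (h4 n L D c hc).2.1
     map_smul' := fun a y => by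
      rw [(h4 n L D c hc).2.2.1]
      rfl }, fun _ => rfl⟩

/-- The positive components. -/
lemma emb_mgf (h3 : StA3) (h6 : StN7) (h7 : StN8) (D : Sys n L) (X0 : Set L) (m : MData n L)
    (z : Idx n m.r → ℂ) (hm : IsModel D X0 m) (hz : m.IsKer 1 1 z) (g : ℕ) (hg : g ≠ 0) :
    D.emb (mgf D m z g) = comp D m z g := by
  obtain ⟨e1, e2⟩ := h6 n L D X0 m z g hm hz
  have e3 := (h7 n L D (comp D m z g) g e2 e1).2.1 (by exact_mod_cast Nat.pos_of_ne_zero hg)
  unfold mgf
  rw [if_neg hg]
  exact (h3 n L D).2.2.1 _ e3.1

end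

theorem hN13 (h1 : StA0) (h2 : StA2) (h3 : StA3) (h4 : StK2) (h5 : StK3) (h6 : StN7) (h7 : StN8)
    (h8 : StN9) (h9 : StN10) (h10 : StN15) : StN13 := by
  intro n L _ _ _ _ _ D X0 m z c hm hn hz hc
  obtain ⟨τ, hτ⟩ := tau_lin h4 D c hc
  have hlen : c.length ≠ 0 := fun h => hc (List.length_eq_zero_iff.mp h)
  constructor
  · -- first part
    rw [emb_mgf h3 h6 h7 D X0 m z hm hz _ hlen]
    have e1 : ∀ y, D.tau c y = τ (D.g.p c.length y) := by
      intro y
      have e := (h5 n L D c hc).2 (c.length : ℤ) y
      rw [if_pos rfl] at e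
      rw [← e, hτ]
    have hfin := fin_ilen (n := n) (r := m.r) c.length
    rw [comp_eq h1 h2 D m z c.length hfin.toFinset
      (fun i hi => by
        rw [Set.Finite.mem_toFinset, Set.mem_setOf_eq]
        simpa using hi)]
    rw [hτ, map_sum]
    rw [finsum_eq_sum_of_support_subset (s := hfin.toFinset)]
    · refine Finset.sum_congr rfl fun i _ => ?_
      rw [e1, map_smul, smul_eq_mul]
    · intro i hi
      rw [Function.mem_support, e1] at hi
      rw [Set.Finite.coe_toFinset, Set.mem_setOf_eq]
      have := supp_gp h1 h2 D m c.length i (fun h => hi (by rw [h, map_zero, mul_zero]))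
      simpa using this
  · -- second part
    obtain ⟨K, hK⟩ := h9 n L D m c (HH D) hc
    obtain ⟨b, hb⟩ := h10 n L D
    set G : ℤ → ℂ := fun l => τ (comp D m z l * HH D) with hG
    have hhom : ∀ l : ℤ, D.g.p l (comp D m z l) = comp D m z l := fun l =>
      (h6 n L D X0 m z l hm hz).2
    have hfix : ∀ l : ℤ, D.Phi 1 (comp D m z l) = comp D m z l := fun l =>
      (h6 n L D X0 m z l hm hz).1
    have hGneg : ∀ l : ℤ, l ≤ 0 → G l = 0 := by
      intro l hl
      obtain ⟨f1, f2, f3⟩ := h7 n L D (comp D m z l) l (hhom l) (hfix l)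
      rcases hl.lt_or_eq with hl | hl
      · obtain ⟨g1, g2, g3⟩ := f3 hl
        have g4 := (h8 n L D (D.cf (star (comp D m z l))) (-l).toNat c hc (by omega) g2
          (fun ν hν => by have := g3 ν hν; omega)).2
        rw [(h3 n L D).2.2.1 _ g1, star_star, hτ] at g4
        exact g4
      · simp only [hG]
        rw [f1 hl hn, zero_mul, map_zero]
    have hGout : ∀ l : ℤ, (c.length : ℤ) + b < l → G l = 0 := by
      intro l hl
      have := hb c l (comp D m z l) hc (hhom l) (Or.inl hl)
      rwa [hτ] at this
    set Kb : ℕ := max K (c.length + b) with hKb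
    have hfin := fin_ilen (n := n) (r := m.r) Kb
    set T := hfin.toFinset with hT
    have hTmem : ∀ i : Idx n m.r, i ∈ T ↔ ilen i ≤ Kb := by
      intro i
      rw [hT, Set.Finite.mem_toFinset, Set.mem_setOf_eq]
    set I : Finset ℤ := Finset.Icc (-(b : ℤ)) (c.length + b) with hI
    -- the left side
    have eL : ∑ᶠ i : Idx n m.r, z i * D.tau c (m.piT D 1 i * HH D) = ∑ l ∈ I, G l := by
      rw [finsum_eq_sum_of_support_subset (s := T)]
      · have e1 : ∀ i, τ (m.piT D 1 i * HH D) =
            ∑ l ∈ I, τ (D.g.p l (m.piT D 1 i) * HH D) := by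
          intro i
          have e2 : m.piT D 1 i = ∑ᶠ l : ℤ, D.g.p l (m.piT D 1 i) := (D.g.sum _).symm
          have e3 : τ ((∑ᶠ l : ℤ, D.g.p l (m.piT D 1 i)) * HH D) =
              ∑ᶠ l : ℤ, τ (D.g.p l (m.piT D 1 i) * HH D) := by
            have e4 := map_finsum (τ ∘ₗ LinearMap.mulRight ℂ (HH D))
              (f := fun l : ℤ => D.g.p l (m.piT D 1 i)) (D.g.fin (m.piT D 1 i))
            simpa only [LinearMap.comp_apply, LinearMap.mulRight_apply] using e4
          rw [← e2] at e3
          rw [e3]
          apply finsum_eq_sum_of_support_subset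
          intro l hl
          rw [Function.mem_support] at hl
          rw [hI, Finset.coe_Icc, Set.mem_Icc]
          by_contra hcon
          apply hl
          rw [← hτ]
          apply hb c l _ hc
          · rw [D.g.pp, if_pos rfl]
          · rw [not_and_or, not_le, not_le] at hcon
            rcases hcon with h | h
            · exact Or.inr (by omega)
            · exact Or.inl h
        have e5 : ∀ l ∈ I, G l = ∑ i ∈ T, z i * τ (D.g.p l (m.piT D 1 i) * HH D) := by
          intro l hl
          rw [hI, Finset.mem_Icc] at hl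
          simp only [hG]
          rw [comp_eq h1 h2 D m z l T (fun i hi => by rw [hTmem]; omega), Finset.sum_mul, map_sum]
          refine Finset.sum_congr rfl fun i _ => ?_
          rw [smul_mul_assoc, map_smul, smul_eq_mul]
        rw [Finset.sum_congr rfl e5, Finset.sum_comm]
        refine Finset.sum_congr rfl fun i _ => ?_
        rw [hτ, e1, Finset.mul_sum]
      · intro i hi
        rw [Function.mem_support] at hi
        rw [Finset.mem_coe, hTmem]
        by_contra hcon
        apply hi
        rw [hK 1 i (by omega), mul_zero]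
    rw [eL]
    -- the right side
    have eF : ∀ g : ℕ, D.tau c (D.emb (mgf D m z g) * HH D) = G (g : ℤ) := by
      intro g
      by_cases hg : g = 0
      · subst hg
        rw [hGneg _ (by simp)]
        unfold mgf
        rw [if_pos rfl, map_zero, zero_mul, hτ, map_zero]
      · rw [emb_mgf h3 h6 h7 D X0 m z hm hz g hg, hτ]
    rw [finsum_congr eF, finsum_eq_sum_of_support_subset (s := Finset.range (c.length + b + 1))]
    · have e6 := Finset.sum_map (Finset.range (c.length + b + 1)) (Nat.castEmbedding (R := ℤ)) G
      simp only [Nat.castEmbedding_apply] at e6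
      rw [← e6]
      symm
      apply Finset.sum_subset
      · intro l hl
        rw [Finset.mem_map] at hl
        obtain ⟨g, hg, rfl⟩ := hl
        rw [Finset.mem_range] at hg
        rw [hI, Finset.mem_Icc, Nat.castEmbedding_apply]
        omega
      · intro l hl hl'
        rw [hI, Finset.mem_Icc] at hl
        apply hGneg
        by_contra hcon
        apply hl'
        rw [Finset.mem_map]
        refine ⟨l.toNat, ?_, ?_⟩
        · rw [Finset.mem_range]
          omega
        · rw [Nat.castEmbedding_apply]
          omega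
    · intro g hg
      rw [Function.mem_support] at hg
      rw [Finset.mem_coe, Finset.mem_range]
      by_contra hcon
      apply hg
      apply hGout
      omega

end Pool.Agent.Helper19.SI
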